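import Pool.Agent.H23.GB.Targets9

/-!
Module N9 of the GB project (MP_684e05_nt): the values of the certificate near pairs of nodes.
-/

set_option autoImplicit false

open Finset Polynomial

namespace Pool.Agent.H27.GB

open Pool.Agent.H23.GW Pool.Agent.H23.GA Pool.Agent.H23.GB

noncomputable section

/-- rational approximations of the nodes -/
def r1 : ℝ := 20941043069530764 / 10 ^ 16
/-- rational approximations of the nodes -/
def r2 : ℝ := 86265950530763773 / 10 ^ 16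
/-- rational approximations of the nodes -/
def r3 : ℝ := 205495501847068464 / 10 ^ 16
/-- rational approximations of the nodes -/
def r4 : ℝ := 407297504552636999 / 10 ^ 16

lemma prod_eq {x : ℝ} (hx : 0 ≤ x) :
    |15120 * (1 - q9 x) - (x - r1) * (x - r2) * (x - r3) * (x - r4)| ≤
      1 / 10 ^ 10 * (x ^ 2 + x + 1) := by
  have e : 15120 * (1 - q9 x) - (x - r1) * (x - r2) * (x - r3) * (x - r4) =
      (1512 - (r1 * r2 + r1 * r3 + r1 * r4 + r2 * r3 + r2 * r4 + r3 * r4)) * x ^ 2 +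
      (-10080 + (r1 * r2 * r3 + r1 * r2 * r4 + r1 * r3 * r4 + r2 * r3 * r4)) * x +
      (15120 - r1 * r2 * r3 * r4) + (-72 + (r1 + r2 + r3 + r4)) * x ^ 3 := by
    rw [q9]
    ring
  have h3 : -72 + (r1 + r2 + r3 + r4) = 0 := by
    rw [r1, r2, r3, r4]
    norm_num
  have h2 : |1512 - (r1 * r2 + r1 * r3 + r1 * r4 + r2 * r3 + r2 * r4 + r3 * r4)| ≤
      1 / 10 ^ 10 := by
    rw [r1, r2, r3, r4, abs_le]
    constructor <;> norm_num
  have h1 : |-10080 + (r1 * r2 * r3 + r1 * r2 * r4 + r1 * r3 * r4 + r2 * r3 * r4)| ≤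
      1 / 10 ^ 10 := by
    rw [r1, r2, r3, r4, abs_le]
    constructor <;> norm_num
  have h0 : |15120 - r1 * r2 * r3 * r4| ≤ 1 / 10 ^ 10 := by
    rw [r1, r2, r3, r4, abs_le]
    constructor <;> norm_num
  rw [e, h3, zero_mul, add_zero]
  refine (abs_add_le _ _).trans ?_
  refine (add_le_add_left (abs_add_le _ _) _).trans ?_
  rw [abs_mul, abs_mul, abs_of_nonneg hx, abs_of_nonneg (sq_nonneg x)]
  have g2 := mul_le_mul_of_nonneg_right h2 (sq_nonneg x)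
  have g1 := mul_le_mul_of_nonneg_right h1 hx
  linarith

lemma big {x : ℝ} (hx : 42 ≤ x) : 1 < |q9 x - 1| := by
  have e : 15120 * (1 - q9 x) = 36288 + 32256 * (x - 42) + 3024 * (x - 42) ^ 2 +
      96 * (x - 42) ^ 3 + (x - 42) ^ 4 := by
    rw [q9]
    ring
  have h0 : 0 ≤ x - 42 := by linarith
  have h : 15120 * (1 - q9 x) ≥ 36288 := by
    rw [e]
    have := pow_nonneg h0 2
    have := pow_nonneg h0 3
    have := pow_nonneg h0 4
    linarith
  rw [abs_sub_comm, abs_of_nonneg (by linarith)]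
  linarith

lemma four_abs {a b c d A B C D : ℝ} (ha : A ≤ |a|) (hb : B ≤ |b|) (hc : C ≤ |c|)
    (hd : D ≤ |d|) (hA : 0 ≤ A) (hB : 0 ≤ B) (hC : 0 ≤ C) (hD : 0 ≤ D) :
    A * B * C * D ≤ |a * b * c * d| := by
  rw [abs_mul, abs_mul, abs_mul]
  have h1 := mul_le_mul ha hb hB (abs_nonneg a)
  have h2 := mul_le_mul h1 hc hC (by positivity)
  exact mul_le_mul h2 hd hD (by positivity)

lemma near {x : ℝ} (h2 : 2 ≤ x) (hq : |q9 x - 1| ≤ 1 / 10 ^ 10) :
    x ≤ 42 ∧ (|x - r1| ≤ 1 / 10 ^ 7 ∨ |x - r2| ≤ 1 / 10 ^ 7 ∨ |x - r3| ≤ 1 / 10 ^ 7 ∨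
      |x - r4| ≤ 1 / 10 ^ 7) := by
  have hx42 : x ≤ 42 := by
    by_contra h
    have := big (not_le.1 h).le
    have h1 : |q9 x - 1| ≤ 1 := hq.trans (by norm_num)
    linarith
  refine ⟨hx42, ?_⟩
  by_contra hcon
  push Not at hcon
  obtain ⟨c1, c2, c3, c4⟩ := hcon
  have hp := prod_eq (show 0 ≤ x by linarith)
  have hx2 : x ^ 2 ≤ 1764 := by nlinarith
  have hq' : |15120 * (1 - q9 x)| ≤ 15120 / 10 ^ 10 := by
    rw [abs_mul, abs_sub_comm, abs_of_pos (show (0 : ℝ) < 15120 by norm_num)]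
    linarith
  have hP : |(x - r1) * (x - r2) * (x - r3) * (x - r4)| ≤ 172 / 10 ^ 8 := by
    have h := abs_sub_abs_le_abs_sub ((x - r1) * (x - r2) * (x - r3) * (x - r4))
      (15120 * (1 - q9 x))
    rw [abs_sub_comm] at h
    have h3 : (1 : ℝ) / 10 ^ 10 * (x ^ 2 + x + 1) ≤ 1 / 10 ^ 10 * 2000 :=
      mul_le_mul_of_nonneg_left (by linarith) (by norm_num)
    have h4 : (1 : ℝ) / 10 ^ 10 * 2000 + 15120 / 10 ^ 10 ≤ 172 / 10 ^ 8 := by norm_num
    linarith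
  have v1 : r1 = 2 + 941043069530764 / 10 ^ 16 := by rw [r1]; norm_num
  have v2 : r2 = 8 + 6265950530763773 / 10 ^ 16 := by rw [r2]; norm_num
  have v3 : r3 = 20 + 5495501847068464 / 10 ^ 16 := by rw [r3]; norm_num
  have v4 : r4 = 40 + 7297504552636999 / 10 ^ 16 := by rw [r4]; norm_num
  have b1 : 2 ≤ r1 ∧ r1 ≤ 3 := by rw [v1]; constructor <;> norm_num
  have b2 : 8 ≤ r2 ∧ r2 ≤ 9 := by rw [v2]; constructor <;> norm_num
  have b3 : 20 ≤ r3 ∧ r3 ≤ 21 := by rw [v3]; constructor <;> norm_num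
  have b4 : 40 ≤ r4 ∧ r4 ≤ 41 := by rw [v4]; constructor <;> norm_num
  rcases le_or_gt x 5 with g1 | g1
  · have a2 : 3 ≤ |x - r2| := by rw [abs_sub_comm]; exact le_trans (by linarith) (le_abs_self _)
    have a3 : 3 ≤ |x - r3| := by rw [abs_sub_comm]; exact le_trans (by linarith) (le_abs_self _)
    have a4 : 3 ≤ |x - r4| := by rw [abs_sub_comm]; exact le_trans (by linarith) (le_abs_self _)
    have := four_abs c1.le a2 a3 a4 (by norm_num) (by norm_num) (by norm_num) (by norm_num)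
    norm_num at this hP
    linarith
  · have a1 : 2 ≤ |x - r1| := le_trans (by linarith) (le_abs_self _)
    rcases le_or_gt x 14 with g2 | g2
    · have a3 : 3 ≤ |x - r3| := by
        rw [abs_sub_comm]; exact le_trans (by linarith) (le_abs_self _)
      have a4 : 3 ≤ |x - r4| := by
        rw [abs_sub_comm]; exact le_trans (by linarith) (le_abs_self _)
      have := four_abs a1 c2.le a3 a4 (by norm_num) (by norm_num) (by norm_num) (by norm_num)
      norm_num at this hP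
      linarith
    · have a2 : 3 ≤ |x - r2| := le_trans (by linarith) (le_abs_self _)
      rcases le_or_gt x 30 with g3 | g3
      · have a4 : 3 ≤ |x - r4| := by
          rw [abs_sub_comm]; exact le_trans (by linarith) (le_abs_self _)
        have := four_abs a1 a2 c3.le a4 (by norm_num) (by norm_num) (by norm_num) (by norm_num)
        norm_num at this hP
        linarith
      · have a3 : 3 ≤ |x - r3| := le_trans (by linarith) (le_abs_self _)
        have := four_abs a1 a2 a3 c4.le (by norm_num) (by norm_num) (by norm_num) (by norm_num)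
        norm_num at this hP
        linarith

/-! ### Lipschitz bounds -/

lemma pow_diff {x a : ℝ} (hx0 : 0 ≤ x) (hx : x ≤ 42) (ha0 : 0 ≤ a) (ha : a ≤ 42) :
    |x ^ 2 - a ^ 2| ≤ 84 * |x - a| ∧ |x ^ 3 - a ^ 3| ≤ 5292 * |x - a| ∧
      |x ^ 4 - a ^ 4| ≤ 296352 * |x - a| := by
  have hx2 : x ^ 2 ≤ 1764 := by nlinarith
  have ha2 : a ^ 2 ≤ 1764 := by nlinarith
  have hxa : x * a ≤ 1764 := by nlinarith
  have hxa0 : 0 ≤ x * a := mul_nonneg hx0 ha0
  have h0 := abs_nonneg (x - a)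
  refine ⟨?_, ?_, ?_⟩
  · rw [show x ^ 2 - a ^ 2 = (x + a) * (x - a) by ring, abs_mul,
      abs_of_nonneg (show 0 ≤ x + a by linarith)]
    exact mul_le_mul_of_nonneg_right (by linarith) h0
  · rw [show x ^ 3 - a ^ 3 = (x ^ 2 + x * a + a ^ 2) * (x - a) by ring, abs_mul,
      abs_of_nonneg (show 0 ≤ x ^ 2 + x * a + a ^ 2 by positivity)]
    exact mul_le_mul_of_nonneg_right (by linarith) h0
  · rw [show x ^ 4 - a ^ 4 = ((x ^ 2 + a ^ 2) * (x + a)) * (x - a) by ring, abs_mul,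
      abs_of_nonneg (show 0 ≤ (x ^ 2 + a ^ 2) * (x + a) by positivity)]
    refine mul_le_mul_of_nonneg_right ?_ h0
    calc (x ^ 2 + a ^ 2) * (x + a) ≤ 3528 * 84 :=
          mul_le_mul (by linarith) (by linarith) (by linarith) (by norm_num)
      _ ≤ 296352 := by norm_num

lemma lip_x {x a y : ℝ} (hx0 : 0 ≤ x) (hx : x ≤ 42) (ha0 : 0 ≤ a) (ha : a ≤ 42) (hy0 : 0 ≤ y)
    (hy : y ≤ 42) : |F9 x y - F9 a y| ≤ 3400 * |x - a| := by
  obtain ⟨p2, p3, p4⟩ := pow_diff hx0 hx ha0 ha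
  have hy2 : y ^ 2 ≤ 1764 := by nlinarith
  have hy20 : 0 ≤ y ^ 2 := sq_nonneg y
  have h0 := abs_nonneg (x - a)
  have k1 : |-6666667 + 3927884 * y - 355447 * y ^ 2| ≤ 798646303 := by
    rw [abs_le]; constructor <;> linarith
  have k2 : |1000000 - 575177 * y + 46629 * y ^ 2| ≤ 107410990 := by
    rw [abs_le]; constructor <;> linarith
  have k3 : |-47619 + 25862 * y - 1491 * y ^ 2| ≤ 3763947 := by
    rw [abs_le]; constructor <;> linarith
  have k4 : |661 - 316 * y| ≤ 13933 := by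
    rw [abs_le]; constructor <;> linarith
  have e : F9 x y - F9 a y = ((-6666667 + 3927884 * y - 355447 * y ^ 2) * (x - a) +
      (1000000 - 575177 * y + 46629 * y ^ 2) * (x ^ 2 - a ^ 2) +
      (-47619 + 25862 * y - 1491 * y ^ 2) * (x ^ 3 - a ^ 3) +
      (661 - 316 * y) * (x ^ 4 - a ^ 4)) / 10 ^ 7 := by
    rw [F9, F9]
    ring
  rw [e, abs_div, abs_of_pos (show (0 : ℝ) < 10 ^ 7 by norm_num), div_le_iff₀ (by norm_num)]
  have m1 := mul_le_mul_of_nonneg_right k1 h0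
  have m2 := mul_le_mul k2 p2 (abs_nonneg _) (by norm_num)
  have m3 := mul_le_mul k3 p3 (abs_nonneg _) (by norm_num)
  have m4 := mul_le_mul k4 p4 (abs_nonneg _) (by norm_num)
  rw [← abs_mul] at m1 m2 m3 m4
  have t1 := abs_add_le ((-6666667 + 3927884 * y - 355447 * y ^ 2) * (x - a) +
      (1000000 - 575177 * y + 46629 * y ^ 2) * (x ^ 2 - a ^ 2) +
      (-47619 + 25862 * y - 1491 * y ^ 2) * (x ^ 3 - a ^ 3)) ((661 - 316 * y) * (x ^ 4 - a ^ 4))
  have t2 := abs_add_le ((-6666667 + 3927884 * y - 355447 * y ^ 2) * (x - a) +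
      (1000000 - 575177 * y + 46629 * y ^ 2) * (x ^ 2 - a ^ 2))
      ((-47619 + 25862 * y - 1491 * y ^ 2) * (x ^ 3 - a ^ 3))
  have t3 := abs_add_le ((-6666667 + 3927884 * y - 355447 * y ^ 2) * (x - a))
      ((1000000 - 575177 * y + 46629 * y ^ 2) * (x ^ 2 - a ^ 2))
  linarith

lemma lip_y {a y b : ℝ} (ha0 : 0 ≤ a) (ha : a ≤ 42) (hy0 : 0 ≤ y) (hy : y ≤ 42) (hb0 : 0 ≤ b)
    (hb : b ≤ 42) : |F9 a y - F9 a b| ≤ 2200 * |y - b| := by
  obtain ⟨p2, p3, -⟩ := pow_diff hy0 hy hb0 hb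
  have ha2 : a ^ 2 ≤ 1764 := by nlinarith
  have ha20 : 0 ≤ a ^ 2 := sq_nonneg a
  have ha3 : a ^ 3 ≤ 74088 := by
    calc a ^ 3 = a ^ 2 * a := by ring
      _ ≤ 1764 * 42 := mul_le_mul ha2 ha ha0 (by norm_num)
      _ = 74088 := by norm_num
  have ha30 : 0 ≤ a ^ 3 := pow_nonneg ha0 3
  have ha4 : a ^ 4 ≤ 3111696 := by
    calc a ^ 4 = a ^ 2 * a ^ 2 := by ring
      _ ≤ 1764 * 1764 := mul_le_mul ha2 ha2 ha20 (by norm_num)
      _ = 3111696 := by norm_num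
  have ha40 : 0 ≤ a ^ 4 := pow_nonneg ha0 4
  have h0 := abs_nonneg (y - b)
  have k1 : |-6421146 + 3927884 * a - 575177 * a ^ 2 + 25862 * a ^ 3 - 316 * a ^ 4| ≤
      4085388282 := by
    rw [abs_le]; constructor <;> linarith
  have k2 : |842348 - 355447 * a + 46629 * a ^ 2 - 1491 * a ^ 3| ≤ 208489886 := by
    rw [abs_le]; constructor <;> linarith
  have e : F9 a y - F9 a b =
      ((-6421146 + 3927884 * a - 575177 * a ^ 2 + 25862 * a ^ 3 - 316 * a ^ 4) * (y - b) +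
      (842348 - 355447 * a + 46629 * a ^ 2 - 1491 * a ^ 3) * (y ^ 2 - b ^ 2) +
      (-26938) * (y ^ 3 - b ^ 3)) / 10 ^ 7 := by
    rw [F9, F9]
    ring
  rw [e, abs_div, abs_of_pos (show (0 : ℝ) < 10 ^ 7 by norm_num), div_le_iff₀ (by norm_num)]
  have m1 := mul_le_mul_of_nonneg_right k1 h0
  have m2 := mul_le_mul k2 p2 (abs_nonneg _) (by norm_num)
  have m3 := mul_le_mul (show |(-26938 : ℝ)| ≤ 26938 by norm_num [abs_of_neg]) p3
    (abs_nonneg _) (by norm_num)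
  rw [← abs_mul] at m1 m2 m3
  have t2 := abs_add_le ((-6421146 + 3927884 * a - 575177 * a ^ 2 + 25862 * a ^ 3 -
      316 * a ^ 4) * (y - b) +
      (842348 - 355447 * a + 46629 * a ^ 2 - 1491 * a ^ 3) * (y ^ 2 - b ^ 2))
      ((-26938) * (y ^ 3 - b ^ 3))
  have t3 := abs_add_le ((-6421146 + 3927884 * a - 575177 * a ^ 2 + 25862 * a ^ 3 -
      316 * a ^ 4) * (y - b))
      ((842348 - 355447 * a + 46629 * a ^ 2 - 1491 * a ^ 3) * (y ^ 2 - b ^ 2))
  linarith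

/-! ### The values at the nodes -/

lemma val (a b : ℝ) (ha : a = 0 ∨ a = r1 ∨ a = r2 ∨ a = r3 ∨ a = r4)
    (hb : b = 0 ∨ b = r1 ∨ b = r2 ∨ b = r3 ∨ b = r4) :
    F9 a b ≤ 998 / 1000 ∧ ((a ≠ 0 ∨ b ≠ 0) → F9 a b ≤ -(19 / 10000)) := by
  by_cases h : a = 0 ∧ b = 0
  · rw [h.1, h.2]
    refine ⟨by rw [F9]; norm_num, fun h' => ?_⟩
    rcases h' with h' | h' <;> exact absurd rfl h'
  · have key : F9 a b ≤ -(19 / 10000) := by
      rcases ha with ha | ha | ha | ha | ha <;> rcases hb with hb | hb | hb | hb | hb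
      · exact absurd ⟨ha, hb⟩ h
      all_goals
        rw [ha, hb, F9]
        norm_num [r1, r2, r3, r4]
    exact ⟨key.trans (by norm_num), fun _ => key⟩

lemma r_le : (2 ≤ r1 ∧ r1 ≤ 42) ∧ (2 ≤ r2 ∧ r2 ≤ 42) ∧ (2 ≤ r3 ∧ r3 ≤ 42) ∧
    (2 ≤ r4 ∧ r4 ≤ 42) := by
  rw [r1, r2, r3, r4]
  norm_num

lemma cases_node {x : ℝ} (hx0 : 0 ≤ x) (hx : x ≤ 1 / 10 ^ 10 ∨ (2 ≤ x ∧ |q9 x - 1| ≤ 1 / 10 ^ 10)) :
    ∃ a : ℝ, (a = 0 ∨ a = r1 ∨ a = r2 ∨ a = r3 ∨ a = r4) ∧ 0 ≤ a ∧ a ≤ 42 ∧ x ≤ 42 ∧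
      |x - a| ≤ 1 / 10 ^ 7 ∧ (2 ≤ x → a ≠ 0) := by
  obtain ⟨⟨u1, w1⟩, ⟨u2, w2⟩, ⟨u3, w3⟩, ⟨u4, w4⟩⟩ := r_le
  rcases hx with hx | ⟨h2, hx⟩
  · have hx' : x ≤ 1 / 10 ^ 7 := hx.trans (by norm_num)
    have h1 : (1 : ℝ) / 10 ^ 7 < 1 := by norm_num
    refine ⟨0, Or.inl rfl, le_rfl, by norm_num, by linarith, ?_, fun h => by linarith⟩
    rw [sub_zero, abs_of_nonneg hx0]
    exact hx'
  · obtain ⟨h42, h | h | h | h⟩ := near h2 hx
    · exact ⟨r1, Or.inr (Or.inl rfl), by linarith, w1, h42, h, fun _ => by linarith⟩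
    · exact ⟨r2, Or.inr (Or.inr (Or.inl rfl)), by linarith, w2, h42, h, fun _ => by linarith⟩
    · exact ⟨r3, Or.inr (Or.inr (Or.inr (Or.inl rfl))), by linarith, w3, h42, h,
        fun _ => by linarith⟩
    · exact ⟨r4, Or.inr (Or.inr (Or.inr (Or.inr rfl))), by linarith, w4, h42, h,
        fun _ => by linarith⟩

theorem n9 : T_N9 := by
  intro B
  refine ⟨1 / 10 ^ 10, by norm_num, fun x y hx0 hy0 _ _ hx hy => ?_⟩
  obtain ⟨a, ha, ha0, ha42, hx42, hxa, hna⟩ := cases_node hx0 hx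
  obtain ⟨b, hb, hb0, hb42, hy42, hyb, hnb⟩ := cases_node hy0 hy
  obtain ⟨v1, v2⟩ := val a b ha hb
  have l1 := lip_x hx0 hx42 ha0 ha42 hy0 hy42
  have l2 := lip_y ha0 ha42 hy0 hy42 hb0 hb42
  have m1 : 3400 * |x - a| ≤ 34 / 10 ^ 5 := by
    have := mul_le_mul_of_nonneg_left hxa (show (0 : ℝ) ≤ 3400 by norm_num)
    refine this.trans ?_
    norm_num
  have m2 : 2200 * |y - b| ≤ 22 / 10 ^ 5 := by
    have := mul_le_mul_of_nonneg_left hyb (show (0 : ℝ) ≤ 2200 by norm_num)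
    refine this.trans ?_
    norm_num
  have n1 := (abs_le.1 (l1.trans m1)).2
  have n2 := (abs_le.1 (l2.trans m2)).2
  have n3 : (34 : ℝ) / 10 ^ 5 + 22 / 10 ^ 5 ≤ 1 / 1000 := by norm_num
  constructor
  · linarith
  · intro h
    have := v2 (h.imp hna hnb)
    linarith

end

end Pool.Agent.H27.GB
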